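import Pool.Agent.MP_ea150c_mp.H20.SpecM

/-! The abstract congruence between parametric and position space. -/

namespace Pool.Agent.MP_ea150c_mp.H44

open H20

variable {F E : Type} [Field F] [Fintype F] [DecidableEq F] [Fintype E] [DecidableEq E]

/-- The involution of the projective line that swaps the two coordinates. -/
def sw : Option F → Option F
  | none => some 0
  | some a => if a = 0 then none else some a⁻¹

omit [Fintype F] in
theorem sw_sw : Function.Involutive (sw (F := F)) := by
  rintro (_ | a)
  · simp [sw]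
  · by_cases h : a = 0 <;> simp [sw, h]

omit [Fintype F] [Fintype E] [DecidableEq E] in
theorem nsol_sw (U Z : Submodule F (E → F)) (x : E → Option F) :
    nsol Z U (fun e => sw (x e)) = nsol U Z x := by
  refine Nat.card_congr (Equiv.subtypeEquiv (Equiv.prodComm _ _) fun y => forall_congr' fun e => ?_)
  beta_reduce
  rcases x e with _ | a
  · simp [sw, al, te, eq_comm]
  · by_cases h : a = 0
    · simp [sw, al, te, h, eq_comm]
    · simp only [sw, al, te, h, if_false, one_mul, Equiv.prodComm_apply, Prod.fst_swap,
        Prod.snd_swap]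
      rw [inv_mul_eq_iff_eq_mul₀ h, eq_comm]

theorem pair_sw (U Z : Submodule F (E → F)) (ω : E → Option F → ℤ) :
    pair ω (zz Z U) = pair (fun e x => ω e (sw x)) (zz U Z) := by
  refine (Fintype.sum_equiv (Equiv.piCongrRight fun _ => sw_sw.toPerm) _ _ fun x => ?_).symm
  exact congrArg _ (congrArg (fun n => if n = 1 then (1 : ℤ) else 0) (nsol_sw U Z x).symm)

omit [Field F] in
theorem expand (C : Finset E) (c a b : Option F → ℤ) (k N : ℤ) (f : (E → Option F) → ℤ)
    (h : ∀ S : Finset E, S.Nonempty → Disjoint S C →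
      N ∣ k ^ S.card * pair (fun e x => if e ∈ S then b x else if e ∈ C then c x else a x) f) :
    N ∣ pair (fun e x => if e ∈ C then c x else a x + k * b x) f -
      pair (fun e x => if e ∈ C then c x else a x) f := by
  have e1 : pair (fun e x => if e ∈ C then c x else a x + k * b x) f =
      ∑ S : Finset E, ∑ x : E → Option F, ((∏ e ∈ S, if e ∈ C then 0 else k * b (x e)) *
        ∏ e ∈ Sᶜ, if e ∈ C then c (x e) else a (x e)) * f x := by
    rw [Finset.sum_comm]
    refine Finset.sum_congr rfl fun x _ => ?_
    rw [← Finset.sum_mul, ← Fintype.prod_add]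
    refine congrArg (· * f x) (Finset.prod_congr rfl fun e _ => ?_)
    beta_reduce
    split_ifs <;> ring
  rw [e1, ← Finset.add_sum_erase _ _ (Finset.mem_univ ∅)]
  simp only [Finset.prod_empty, one_mul, Finset.compl_empty]
  rw [pair, add_sub_cancel_left]
  refine Finset.dvd_sum fun S hS => ?_
  by_cases d : Disjoint S C
  · refine (h S (Finset.nonempty_iff_ne_empty.2 (Finset.ne_of_mem_erase hS)) d).trans
      (dvd_of_eq ?_)
    rw [pair, Finset.mul_sum]
    refine Finset.sum_congr rfl fun x _ => ?_
    rw [← mul_assoc, ← Finset.prod_mul_prod_compl S, ← mul_assoc, ← Finset.prod_const,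
      ← Finset.prod_mul_distrib]
    congr 2
    · exact Finset.prod_congr rfl fun e he => by simp [he, Finset.disjoint_left.1 d he]
    · exact Finset.prod_congr rfl fun e he => by simp [Finset.mem_compl.1 he]
  · obtain ⟨e, h1, h2⟩ := Finset.not_disjoint_iff.1 d
    rw [Finset.sum_eq_zero fun x _ => by
      rw [Finset.prod_eq_zero h1 (by exact if_pos h2), zero_mul, zero_mul]]
    exact dvd_zero _

omit [Field F] in
theorem pair_some (f : (E → Option F) → ℤ) :
    pair (fun _ x => if x = none then 0 else 1) f = ∑ α : E → F, f fun e => some (α e) := by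
  refine (Finset.sum_of_injOn (fun (α : E → F) e => some (α e))
    (fun α _ β _ h => funext fun e => Option.some_injective _ (congrFun h e))
    (fun _ _ => Finset.mem_univ _) (fun x _ hx => ?_) fun α _ => by simp).symm
  by_contra h
  have : ∀ e, ∃ a, x e = some a := fun e => Option.ne_none_iff_exists'.1 fun h0 =>
    h (by rw [Finset.prod_eq_zero (Finset.mem_univ e) (by exact if_pos h0), zero_mul])
  choose α hα using this
  exact hx ⟨α, by simp, (funext hα).symm⟩

/-- Delta at zero. -/
def dc (x : Option F) : ℤ := if x = some 0 then 1 else 0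

/-- Delta at infinity. -/
def dd (x : Option F) : ℤ := if x = none then 1 else 0

/-- The generic weight. -/
def Wa (x : Option F) : ℤ :=
  if x = none then 0 else if x = some 0 then (Fintype.card F : ℤ) - 1 else -1

omit [Fintype F] in
theorem dd_sw (x : Option F) : dd (sw x) = dc x := by
  rcases x with _ | a
  · simp [sw, dd, dc]
  · by_cases h : a = 0 <;> simp [sw, dd, dc, h]

theorem Wa_sw (x : Option F) : Wa (sw x) + ((Fintype.card F : ℤ) - 1) * dc x =
    Wa x + ((Fintype.card F : ℤ) - 1) * dd x := by
  rcases x with _ | a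
  · simp [sw, dd, dc, Wa]
  · by_cases h : a = 0 <;> simp [sw, dd, dc, Wa, h]

theorem Wa_dc (x : Option F) :
    Wa x + -(Fintype.card F : ℤ) * dc x = -1 * if x = none then 0 else 1 := by
  rcases x with _ | a
  · simp [dc, Wa]
  · by_cases h : a = 0 <;> simp [dc, Wa, h]
    ring

omit [Fintype E] in
theorem wa_eq (C D : Finset E) :
    wa (F := F) C D = fun e x => if e ∈ D then dd x else if e ∈ C then dc x else Wa x := rfl

theorem ofAbs : OfAbs := by
  intro H F E _ _ _ _ _ U Z m hm hE hU hZ p1 p2
  obtain ⟨a1, b1, c1, -⟩ := H F E U Z m hm hE hZ p1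
  obtain ⟨a2, -, -, d2⟩ := H F E Z U m hm hE hU p2
  set q : ℤ := (Fintype.card F : ℤ) with hq
  simp only [pair_sw U Z, wa_eq, Finset.notMem_empty, if_false, dd_sw] at a1 b1 c1 a2 d2
  have G : ∀ (C : Finset E) (N : ℤ), N ∣ q ^ 3 → (∀ D : Finset E, D.Nonempty → Disjoint D C →
      N ∣ pair (fun e x => if e ∈ D then dd x else if e ∈ C then dc x else Wa x) (zz U Z)) →
      N ∣ pair (fun e x => if e ∈ C then dc x else Wa x) (zz U Z) -
        pair (fun e x => if e ∈ C then dc x else Wa (sw x)) (zz U Z) := by
    intro C N hN h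
    have h1 := expand C dc (fun x => Wa (sw x)) dc (q - 1) N (zz U Z) fun S hS _ => by
      have := a2 (S ∪ C) (hS.mono Finset.subset_union_left)
      simp only [Finset.mem_union, ite_or] at this
      exact (hN.trans this).mul_left _
    have h2 := expand C dc Wa dd (q - 1) N (zz U Z) fun S hS d => (h S hS d).mul_left _
    simp only [hq, Wa_sw] at h1 h2
    simpa using dvd_sub h1 h2
  have s1 := G ∅ _ dvd_rfl fun D hD _ => by simpa using a1 D hD
  have s2 : ∀ e₀, q ^ 2 ∣ pair (fun e x => if e ∈ ({e₀} : Finset E) then dc x else Wa x)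
      (zz U Z) := fun e₀ => by
    have t : q ^ 2 ∣ q ^ 3 := pow_dvd_pow _ (by norm_num)
    have := G {e₀} _ t fun D hD d => b1 e₀ D hD (Finset.disjoint_singleton_right.1 d)
    simpa using dvd_add this (t.trans (a2 {e₀} (Finset.singleton_nonempty _)))
  have s3 := expand ∅ dc Wa dc (-q) (q ^ 3) (zz U Z) fun S hS _ => by
    simp only [Finset.notMem_empty, if_false]
    rw [neg_pow, mul_assoc]
    refine Dvd.dvd.mul_left ?_ _
    rcases Nat.lt_or_ge S.card 3 with h | h
    · rcases (by have := hS.card_pos; omega : S.card = 1 ∨ S.card = 2) with h | h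
      · obtain ⟨e₀, rfl⟩ := Finset.card_eq_one.1 h
        rw [h, pow_one, pow_succ']
        exact mul_dvd_mul_left _ (s2 e₀)
      · rw [h, pow_succ]
        exact mul_dvd_mul_left _ (c1 S h)
    · exact (pow_dvd_pow _ h).mul_right _
  simp only [Finset.notMem_empty, if_false] at s1 s3
  have e : pair (fun _ x => Wa x + -q * dc x) (zz U Z) =
      (Nat.card {α : E → F // nsol U Z (fun e => some (α e)) = 1} : ℤ) := by
    rw [Nat.card_eq_fintype_card, Fintype.card_subtype, Finset.natCast_card_filter]
    refine Eq.trans ?_ (pair_some (zz U Z))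
    refine Finset.sum_congr rfl fun x _ => ?_
    simp only [hq, Wa_dc, Finset.prod_mul_distrib, Finset.prod_const, Finset.card_univ, hE,
      pow_mul, neg_one_sq, one_pow, one_mul]
  rw [e] at s3
  simpa using dvd_add (dvd_add s3 s1) d2

end Pool.Agent.MP_ea150c_mp.H44
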