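import Pool.Agent.MP_ea150c_mp.H44.K4b

/-! The exact trace formula modulo `p^S`. -/

namespace Pool.Agent.MP_ea150c_mp.H44

open H49 MvPolynomial

noncomputable section

open Classical in
theorem tsum1 {W F : Type} [CommRing W] [IsDomain W] [Field F] [Fintype F] (c : W →+* F)
    (τ : F →* W) (h1 : ∀ x, c (τ x) = x) (h0 : τ 0 = 0) (T : Prop) (e : ℕ) :
    ∑ t ∈ Finset.univ.filter fun t : F => T → t ≠ 0, τ t ^ e =
      (if Fintype.card F - 1 ∣ e then ((Fintype.card F - 1 : ℕ) : W) else 0) +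
        if ¬T ∧ e = 0 then 1 else 0 := by
  have a : ∑ t ∈ Finset.univ.erase (0 : F), τ t ^ e =
      if Fintype.card F - 1 ∣ e then ((Fintype.card F - 1 : ℕ) : W) else 0 := by
    have b := sum_hom_units ((powMonoidHom e).comp (τ.comp (Units.coeHom F)))
    have d : (powMonoidHom e).comp (τ.comp (Units.coeHom F)) = 1 ↔ Fintype.card F - 1 ∣ e := by
      rw [← FiniteField.forall_pow_eq_one_iff, MonoidHom.ext_iff]
      refine forall_congr' fun t => ⟨fun h => Units.ext ?_, fun h => ?_⟩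
      · simpa [h1] using congrArg c h
      · simpa using congrArg (fun u : Fˣ => τ u) h
    rw [Fintype.card_units] at b
    simp only [d] at b
    refine Eq.trans ?_ (b.trans (by split_ifs <;> simp))
    exact (Finset.sum_bij (fun (u : Fˣ) _ => (u : F)) (fun u _ => by simp)
      (fun _ _ _ _ h => Units.ext h)
      (fun t ht => ⟨Units.mk0 t (Finset.ne_of_mem_erase ht), by simp⟩) fun u _ => by simp).symm
  rw [← a]
  by_cases hT : T
  · simp [hT, Finset.filter_ne']
  · simp only [hT, false_imp_iff, Finset.filter_true, not_false_iff, true_and]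
    rw [← Finset.sum_erase_add _ _ (Finset.mem_univ 0), h0, zero_pow_eq]

theorem dvd_of_map (p : ℕ) [Fact p.Prime] {W : Type} [CommRing W] [IsDomain W] [CharZero W]
    [Algebra ℤ_[p] W] (hu : ¬IsUnit (p : W)) (S : ℕ) (a : ℤ_[p])
    (h : (p : W) ^ S ∣ algebraMap ℤ_[p] W a) : (p : ℤ_[p]) ^ S ∣ a := by
  induction S generalizing a with
  | zero => simp
  | succ S ih =>
    obtain ⟨b, rfl⟩ : (p : ℤ_[p]) ∣ a := by
      rw [← PadicInt.norm_lt_one_iff_dvd, ← PadicInt.not_isUnit_iff]
      exact fun k => hu (isUnit_of_dvd_unit ((dvd_pow_self _ S.succ_ne_zero).trans h) (k.map _))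
    rw [map_mul, map_natCast, pow_succ', mul_dvd_mul_iff_left
      (Nat.cast_ne_zero.2 (Fact.out : p.Prime).ne_zero)] at h
    rw [pow_succ']
    exact mul_dvd_mul_left _ (ih b h)

theorem exists_G (p : ℕ) [Fact p.Prime] {σ : Type} (f : MvPolynomial σ ℤ) :
    ∃ G : MvPolynomial σ ℤ_[p], expand p (map (Int.castRingHom ℤ_[p]) f) =
      map (Int.castRingHom ℤ_[p]) f ^ p - p * G := by
  obtain ⟨G, hG⟩ : C (p : ℤ) ∣ f ^ p - expand p f := by
    rw [C_dvd_iff_zmod, map_sub, map_pow, map_expand, expand_zmod, sub_self]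
  refine ⟨map (Int.castRingHom ℤ_[p]) G, ?_⟩
  have := congrArg (map (Int.castRingHom ℤ_[p])) hG
  simp only [map_sub, map_pow, map_expand, map_mul, map_natCast] at this
  linear_combination -this

theorem exists_W (p : ℕ) [Fact p.Prime] (F : Type) [Field F] [Fintype F] [CharP F p] :
    ∃ (W : Type) (_ : CommRing W) (_ : IsDomain W) (_ : CharZero W) (_ : Algebra ℤ_[p] W)
      (c : W →+* F) (τ : F →* W), c p = 0 ∧ (∀ w, c w ≠ 0 → IsUnit w) ∧
      (∀ w, c w = 0 → (p : W) ∣ w) ∧ (∀ x, c (τ x) = x) ∧ τ 0 = 0 := by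
  let φ : ℤ_[p] →+* WittVector p F := (WittVector.map (ZMod.castHom (dvd_refl p) F)).comp
    (WittVector.equiv p).symm.toRingHom
  exact ⟨WittVector p F, inferInstance, inferInstance, charZero_of_injective_ringHom (f := φ)
    ((WittVector.map_injective _ (ZMod.castHom _ F).injective).comp
      (WittVector.equiv p).symm.injective), φ.toAlgebra, WittVector.constantCoeff,
    WittVector.teichmuller p, by rw [map_natCast, CharP.cast_eq_zero],
    WittVector.isUnit_of_coeff_zero_ne_zero,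
    fun w h => Ideal.mem_span_singleton.1 ((WittVector.mem_span_p_iff_coeff_zero_eq_zero w).2 h),
    WittVector.teichmuller_coeff_zero p, WittVector.teichmuller_zero p⟩

open Classical in
theorem sum_pts {Λ W F σ : Type} [CommRing Λ] [CommRing W] [Algebra Λ W] [IsDomain W] [Field F]
    [Fintype F] [Fintype σ] [DecidableEq σ] (c : W →+* F) (τ : F →* W) (h1 : ∀ x, c (τ x) = x)
    (h0 : τ 0 = 0) (tor : σ → Prop) (H : MvPolynomial σ Λ) (T : Finset (σ →₀ ℕ))
    (hT : H.support ⊆ T) :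
    ∑ x ∈ Finset.univ.filter fun x : σ → F => ∀ i, tor i → x i ≠ 0, aeval (fun y => τ (x y)) H =
      ∑ v ∈ T, algebraMap Λ W (H.coeff v) * ∏ y,
        ((if Fintype.card F - 1 ∣ v y then ((Fintype.card F - 1 : ℕ) : W) else 0) +
          if ¬tor y ∧ v y = 0 then 1 else 0) := by
  rw [← Finset.sum_subset hT fun v _ h => by rw [notMem_support_iff.1 h, map_zero, zero_mul]]
  simp only [aeval_def, eval₂_eq', ← tsum1 c τ h1 h0, Finset.prod_univ_sum, Finset.mul_sum]
  rw [Finset.sum_comm]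
  refine Finset.sum_congr rfl fun v _ => Finset.sum_congr ?_ fun _ _ => rfl
  ext x
  simp

theorem k4 (h1 : K1) (h3 : K3) (_hr : KRow) (hs : KSupp) (s1 : S1) (s1p : S1p) : K4 := by
  classical
  intro p _ hp S
  obtain ⟨M₀, hM⟩ := point p h1 h3 hp S
  refine ⟨M₀, fun M hM' σ ι _ _ _ _ tor fp D hD C hC k hk F _ _ hF => ?_⟩
  have := charP_of_card_eq_prime_pow hF
  obtain ⟨W, _, _, _, _, c, τ, c0, c1, c2, t1, t0⟩ := exists_W p F
  refine dvd_of_map p (W := W) (fun h => not_isUnit_zero (c0 ▸ h.map c)) S _ ?_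
  choose G hG using fun i => exists_G p (fp i)
  set f := fun i => map (Int.castRingHom ℤ_[p]) (fp i) with hf
  have p0 : (0 : ℤ) < p := by omega
  have q1 : 1 < p ^ k := Nat.one_lt_pow (by omega) (by omega)
  have iE : ∀ Q A, iT ℤ_[p] σ (expand Q A) = phi0 _ ℤ_[p] Q (iT ℤ_[p] σ A) := fun Q A =>
    DFunLike.congr_fun (MvPolynomial.algHom_ext (f := (iT ℤ_[p] σ).comp (expand Q))
      (g := (phi0 _ ℤ_[p] Q).comp (iT ℤ_[p] σ)) fun x => by
        simp [iT, (s1 ℤ_[p] σ _).2.2.2.1]) A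
  have iF : ∀ i, ofPoly _ ℤ_[p] (fp i) = iT ℤ_[p] σ (f i) := fun i =>
    DFunLike.congr_fun (MvPolynomial.ringHom_ext' (f := ofPoly _ ℤ_[p])
      (g := (iT ℤ_[p] σ).toRingHom.comp (map (Int.castRingHom ℤ_[p]))) (Subsingleton.elim _ _)
        fun x => by simp [iT, ofPoly]) _
  have eE : ent p fp = E1 p fun a b => iT ℤ_[p] σ (Ker p f G a b) := by
    funext a b
    have : ∀ i, divp p (iT ℤ_[p] σ (f i) ^ p - phi0 _ ℤ_[p] p (iT ℤ_[p] σ (f i))) =
        iT ℤ_[p] σ (G i) := fun i => by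
      refine sub_eq_zero.1 ((s1p p σ _).1 _ ?_)
      rw [mul_sub, (s1p p σ _).2.1, ← iE, hG]
      simp [hf]
    simp only [ent, E1, cT, iF, this, map_Ker]
  set H := fun l => pth (Lev ι M) (fun j a b => expand (p ^ j) (Ker p f G a b)) k l l with hH
  let ex : (σ → ℤ) → σ →₀ ℕ := fun u =>
    Finsupp.equivFunOnFinite.symm fun y => (p ^ k - 1) * (u y).toNat
  have fH : ∀ a : (σ → ℤ) × (ι → ℕ), (∀ y, 0 ≤ a.1 y) →
      Fk p (fun a b => iT ℤ_[p] σ (Ker p f G a b)) (Lev ι M) k a a = (H a.2).coeff (ex a.1) := by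
    intro a ha
    rw [← cT_iT, Fk]
    congr 1
    · simp only [← iE]
      exact (map_pth (iT ℤ_[p] σ).toRingHom _ _ _ _ _).symm
    · funext y
      simp [ex, ha y, Nat.cast_sub q1.le, sub_mul]
  have ks := fun a b h => hs p hp σ ι ℤ 0 0 fp D hD (by simp) a b h
  have pot := Fk_pot p (fun a b => iT ℤ_[p] σ (Ker p f G a b)) (Lev ι M)
    (fun a => ∑ x, a.1 x - D * ∑ i, ((a.2 i : ℤ) + 1)) (fun a b h => by
      linarith [(ks a b (eE ▸ h)).2.1]) k
  have tr : ∀ Z, trk p fp (C Z) k = ∑ a ∈ C Z, (H a.2).coeff (ex a.1) := by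
    intro Z
    rw [← Finset.sum_congr rfl fun a ha => fH a ((hC Z a).1 ha).1, trk, eE]
    refine Fk_pow p _ _ (C Z) (fun c hc => mem_Lev.2 ((hC Z c).1 hc).2.2.2.2)
      (fun a => ∀ x ∈ Z, a.1 x ≤ 0) (fun a c ha h x hx => ?_) (fun a c ha hl h hc => ?_)
      (fun c hc x hx => (((hC Z c).1 hc).2.1 x hx).le) k
    · exact ((ks a c (eE ▸ h)).1 x).trans (mul_nonpos_of_nonneg_of_nonpos p0.le (ha x hx))
    · obtain ⟨b1, -, b3, b4, -⟩ := (hC Z c).1 hc
      obtain ⟨d1, d2, -⟩ := ks a c (eE ▸ h)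
      have n0 : ∀ x, 0 ≤ a.1 x := fun x => nonneg_of_mul_nonneg_right ((b1 x).trans (d1 x)) p0
      refine (hC Z a).2 ⟨n0, fun x hx => (ha x hx).antisymm (n0 x), fun x h1 h2 =>
        pos_of_mul_pos_right (lt_of_lt_of_le one_pos ((b3 x h1 h2).trans (d1 x))) p0.le, ?_,
        mem_Lev.1 hl⟩
      exact le_of_mul_le_mul_left (by linarith) p0
  set Pts := Finset.univ.filter fun x : σ → F => ∀ i, tor i → x i ≠ 0 with hPts
  have pt : ∀ x : σ → F, (p : W) ^ S ∣
      algebraMap ℤ_[p] _ (lam p) ^ (Fintype.card ι * k) *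
        (if ∀ i, eval₂ (Int.castRingHom F) x (fp i) ≠ 0 then 1 else 0) -
      (1 - (p : W) ^ k) ^ Fintype.card ι *
        ∑ l ∈ Lev ι M, aeval (fun y => τ (x y)) (H l) := by
    intro x
    have := hM M hM' ι _ F c c0 c1 c2 k hk
      (fun j i => aeval (fun y => τ (x y)) (expand (p ^ j) (f i)))
      (fun j i => aeval (fun y => τ (x y)) (expand (p ^ j) (G i)))
      (fun j i => by rw [pow_succ, expand_mul, hG]; simp [hf]) (funext fun i => by
        rw [aeval_expand, aeval_expand, ← hF]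
        congr 2
        funext y
        simp [← map_pow, FiniteField.pow_card])
    refine this.trans (dvd_of_eq (congrArg₂ (· - ·) (congrArg (_ * ·) (if_congr ?_ rfl rfl))
      (congrArg (_ * ·) (Finset.sum_congr rfl fun l _ => ?_))).symm)
    · refine forall_congr' fun i => Iff.of_eq (congrArg (· ≠ 0) ?_)
      rw [pow_zero, expand_one_apply]
      exact DFunLike.congr_fun (MvPolynomial.ringHom_ext' (f := eval₂Hom (Int.castRingHom F) x)
        (g := c.comp ((aeval fun y => τ (x y)).toRingHom.comp (map (Int.castRingHom ℤ_[p]))))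
        (Subsingleton.elim _ _) fun y => by simp [t1]) _
    · refine (map_pth (aeval (R := ℤ_[p]) fun y => τ (x y)).toRingHom _ _ _ _ _).trans ?_
      simp only [AlgHom.toRingHom_eq_coe, RingHom.coe_coe, map_Ker]
  have e1 : (cnt tor fp F : W) =
      ∑ x ∈ Pts, if ∀ i, eval₂ (Int.castRingHom F) x (fp i) ≠ 0 then 1 else 0 := by
    rw [cnt, ← Finset.filter_filter, Finset.natCast_card_filter]
    exact Finset.sum_congr (Finset.ext fun x => by simp [hPts]) fun x _ => by
      split_ifs <;> rfl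
  set Sg := (Finset.univ.filter fun x => ¬tor x).powerset.sigma C with hSg
  have e2 : ∑ x ∈ Pts, ∑ l ∈ Lev ι M, aeval (fun y => τ (x y)) (H l) =
      algebraMap ℤ_[p] W (∑ Z ∈ (Finset.univ.filter fun x => ¬tor x).powerset,
        ((p : ℤ_[p]) ^ k) ^ Z.card * ((p : ℤ_[p]) ^ k - 1) ^ (Fintype.card σ - Z.card) *
          trk p fp (C Z) k) := by
    rw [Finset.sum_comm, Finset.sum_congr rfl fun l hl => sum_pts c τ t1 t0 tor (H l)
      (((Lev ι M).biUnion fun l => (H l).support) ∪ Sg.image fun z => ex z.2.1)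
      ((Finset.subset_biUnion_of_mem (fun l => (H l).support) hl).trans Finset.subset_union_left),
      ← Finset.sum_product_right', hF]
    simp only [tr, Finset.mul_sum]
    rw [Finset.sum_sigma', map_sum]
    have zs : ∀ z ∈ Sg, ∀ y, y ∈ z.1 ↔ ¬tor y ∧ ex z.2.1 y = 0 := by
      intro z hz y
      obtain ⟨a1, a2⟩ := Finset.mem_sigma.1 hz
      obtain ⟨-, b2, b3, -⟩ := (hC _ _).1 a2
      refine ⟨fun h => ⟨(Finset.mem_filter.1 (Finset.mem_powerset.1 a1 h)).2, by simp [ex, b2 y h]⟩,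
        fun h => by_contra fun h' => ?_⟩
      have := b3 y h.1 h'
      have := h.2
      simp only [ex, Finsupp.equivFunOnFinite_symm_apply_apply, mul_eq_zero] at this
      omega
    refine (Finset.sum_of_injOn (s := Sg) (fun z => (ex z.2.1, z.2.2)) ?_ (fun z hz => ?_) ?_
      fun z hz => ?_).symm
    · intro z hz z' hz' h
      obtain ⟨h2, h3⟩ := Prod.ext_iff.1 h
      refine Sigma.ext (Finset.ext fun y => by rw [zs z hz, zs z' hz', show ex z.2.1 = _ from h2])
        (heq_of_eq (Prod.ext (funext fun y => ?_) h3))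
      have := Nat.eq_of_mul_eq_mul_left (Nat.sub_pos_of_lt q1) (DFunLike.congr_fun h2 y)
      have := ((hC _ _).1 (Finset.mem_sigma.1 hz).2).1 y
      have := ((hC _ _).1 (Finset.mem_sigma.1 hz').2).1 y
      omega
    · exact Finset.mem_coe.2 (Finset.mem_product.2 ⟨Finset.mem_union_right _
        (Finset.mem_image_of_mem _ hz), mem_Lev.2 ((hC _ _).1 (Finset.mem_sigma.1 hz).2).2.2.2.2⟩)
    · rintro ⟨v, l⟩ hv hn
      by_contra h
      have d : ∀ y, p ^ k - 1 ∣ v y := fun y => by_contra fun h' =>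
        Finset.prod_ne_zero_iff.1 (right_ne_zero_of_mul h) y (Finset.mem_univ y) (by
          rw [if_neg h', if_neg fun e : _ ∧ v y = 0 => h' (e.2 ▸ dvd_zero _), add_zero])
      choose u hu using d
      have e : ex (fun y => u y) = v := Finsupp.ext fun y => by simp [ex, hu]
      refine hn ⟨⟨Finset.univ.filter fun y => ¬tor y ∧ u y = 0, (fun y => u y, l)⟩,
        Finset.mem_sigma.2 ⟨Finset.mem_powerset.2 fun y hy => ?_, (hC _ _).2
          ⟨fun y => Int.natCast_nonneg _, fun y hy => ?_, fun y h1 h2 => ?_, ?_,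
            mem_Lev.1 (Finset.mem_product.1 hv).2⟩⟩, Prod.ext e rfl⟩
      · simpa using (Finset.mem_filter.1 hy).2.1
      · simpa using (Finset.mem_filter.1 hy).2.2
      · simp only [Finset.mem_filter, Finset.mem_univ, true_and, h1, not_false_iff] at h2
        exact Int.natCast_pos.2 (Nat.pos_of_ne_zero h2)
      · have := pot (fun y => u y, l) _ (by
          rw [fH _ fun y => Int.natCast_nonneg _, e]
          exact fun k => left_ne_zero_of_mul h (by rw [k, map_zero]))
        have q2 : (1 : ℤ) < p ^ k := by exact_mod_cast q1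
        nlinarith
    · rw [map_mul, mul_comm]
      congr 1
      rw [← Finset.prod_mul_prod_compl z.1, ← Finset.card_compl, map_mul, ← Finset.prod_const,
        ← Finset.prod_const (s := z.1ᶜ), map_prod, map_prod]
      congr 1 <;> refine Finset.prod_congr rfl fun y hy => ?_
      · rw [if_pos (by exact Dvd.intro _ rfl), if_pos ((zs z hz y).1 hy)]
        simp [Nat.cast_sub q1.le]
      · rw [if_pos (by exact Dvd.intro _ rfl), if_neg (mt (zs z hz y).2 (Finset.mem_compl.1 hy))]
        simp [Nat.cast_sub q1.le]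
  rw [map_sub, map_mul, map_mul, ← e2, map_natCast, e1, Finset.mul_sum, Finset.mul_sum,
    ← Finset.sum_sub_distrib]
  simpa using Finset.dvd_sum fun x (_ : x ∈ Pts) => pt x

end

end Pool.Agent.MP_ea150c_mp.H44
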