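import Pool.Agent.MP_ea150c_mp.H49.SpecK

/-! Sums over paths, and the fibre traces at one point. -/

namespace Pool.Agent.MP_ea150c_mp.H44

open H49

noncomputable section

/-- Sum over paths of length `k` with intermediate points in `S`. -/
def pth {α R : Type} [DecidableEq α] [CommRing R] (S : Finset α) (A : ℕ → α → α → R) :
    ℕ → α → α → R
  | 0, a, b => if a = b then 1 else 0
  | k + 1, a, b => ∑ c ∈ S, A k a c * pth S A k c b

section Pth
variable {α R R' : Type} [DecidableEq α] [CommRing R] [CommRing R']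

theorem map_pth (g : R →+* R') (S : Finset α) (A : ℕ → α → α → R) (k : ℕ) (a b : α) :
    g (pth S A k a b) = pth S (fun j a b => g (A j a b)) k a b := by
  induction k generalizing a with
  | zero => simp only [pth]; split_ifs <;> simp
  | succ k ih => simp only [pth, map_sum, map_mul, ih]

theorem chain_pth (M : ℕ) (A : ℕ → ℕ → ℕ → R) (k : ℕ) (a b : Fin M) :
    chain (fun j => Matrix.of fun a b : Fin M => A j a b) k a b =
      pth (Finset.range M) A k a b := by
  induction k generalizing a with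
  | zero => simp [chain, pth, Matrix.one_apply, Fin.ext_iff]
  | succ k ih =>
    have e : ∀ B : ℕ → Matrix (Fin M) (Fin M) R, chain B (k + 1) = B k * chain B k := fun B => by
      simp [chain, List.range_succ]
    rw [e, Matrix.mul_apply, pth, ← Fin.sum_univ_eq_sum_range (fun c => A k a c * pth _ A k c b)]
    simp only [ih, Matrix.of_apply]

theorem pth_pi {ι : Type} [Fintype ι] [DecidableEq ι] (S : Finset α) (A : ι → ℕ → α → α → R)
    (k : ℕ) (a b : ι → α) :
    pth (Fintype.piFinset fun _ => S) (fun j a b => ∏ i, A i j (a i) (b i)) k a b =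
      ∏ i, pth S (A i) k (a i) (b i) := by
  induction k generalizing a with
  | zero => simp [pth, Finset.prod_ite_zero, funext_iff]
  | succ k ih => simp only [pth, ih, Finset.prod_univ_sum, Finset.prod_mul_distrib]

theorem pth_shrink {S L : Finset α} (h : L ⊆ S) (A : ℕ → α → α → R) (π : R)
    (hA : ∀ j a c, a ∉ L → π ∣ A j a c) {k : ℕ} (hk : 1 ≤ k) :
    π ∣ ∑ a ∈ S, pth S A k a a - ∑ a ∈ L, pth L A k a a := by
  have row : ∀ k a b, a ∉ L → π ∣ pth S A (k + 1) a b := fun k a b ha =>
    Finset.dvd_sum fun c _ => (hA k a c ha).mul_right _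
  have key : ∀ k a b, b ∈ L → π ∣ pth S A k a b - pth L A k a b := by
    intro k
    induction k with
    | zero => simp [pth]
    | succ k ih =>
      intro a b hb
      rw [pth, pth, ← Finset.sum_sdiff h, add_sub_assoc, ← Finset.sum_sub_distrib]
      refine dvd_add (Finset.dvd_sum fun c hc => Dvd.dvd.mul_left ?_ _)
        (Finset.dvd_sum fun c _ => by rw [← mul_sub]; exact (ih c b hb).mul_left _)
      have hc' := (Finset.mem_sdiff.1 hc).2
      rcases k with _ | k
      · rw [pth, if_neg fun e : c = b => hc' (e ▸ hb)]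
        exact dvd_zero _
      · exact row k c b hc'
  obtain ⟨k, rfl⟩ := Nat.exists_eq_add_of_le' hk
  rw [← Finset.sum_sdiff h, add_sub_assoc, ← Finset.sum_sub_distrib]
  exact dvd_add (Finset.dvd_sum fun c hc => row k c c (Finset.mem_sdiff.1 hc).2)
    (Finset.dvd_sum fun c hc => key _ c c hc)

theorem prod_congr_dvd {ι : Type} (s : Finset ι) (π : R) (a b : ι → R)
    (h : ∀ i ∈ s, π ∣ a i - b i) : π ∣ ∏ i ∈ s, a i - ∏ i ∈ s, b i := by
  rw [← Ideal.mem_span_singleton, ← Ideal.Quotient.eq, map_prod, map_prod]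
  exact Finset.prod_congr rfl fun i hi => Ideal.Quotient.eq.2 (Ideal.mem_span_singleton.2 (h i hi))

end Pth

variable (p : ℕ) [Fact p.Prime] {ι : Type} [Fintype ι] [DecidableEq ι]

theorem map_kap {A B : Type} [CommRing A] [CommRing B] [Algebra ℤ_[p] A] [Algebra ℤ_[p] B]
    (g : A →ₐ[ℤ_[p]] B) (a b : ℕ) (f G : A) : g (kap p a b f G) = kap p a b (g f) (g G) := by
  simp [kap, map_sum]

omit [DecidableEq ι] in
theorem map_Ker {A B : Type} [CommRing A] [CommRing B] [Algebra ℤ_[p] A] [Algebra ℤ_[p] B]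
    (g : A →ₐ[ℤ_[p]] B) (f G : ι → A) (a b : ι → ℕ) :
    g (Ker p f G a b) = Ker p (fun i => g (f i)) (fun i => g (G i)) a b := by
  simp [Ker, map_kap]

omit [DecidableEq ι] in
theorem Ker_dvd (h1 : K1) (hp : 7 ≤ p) {A : Type} [CommRing A] [Algebra ℤ_[p] A] (f G : ι → A)
    (a b : ι → ℕ) : (p : A) ^ nu (∑ i, a i) ∣ Ker p f G a b := by
  have sub : ∀ s : Finset ι, nu (∑ i ∈ s, a i) ≤ ∑ i ∈ s, nu (a i) := by
    classical
    intro s
    induction s using Finset.induction_on with
    | empty => simp [nu]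
    | insert i s hi ih =>
      rw [Finset.sum_insert hi, Finset.sum_insert hi]
      unfold nu at *
      omega
  refine (pow_dvd_pow _ (sub _)).trans ?_
  rw [← Finset.prod_pow_eq_pow_sum]
  refine Finset.prod_dvd_prod_of_dvd _ _ fun i _ => Finset.dvd_sum fun j _ => ?_
  obtain ⟨c, hc⟩ := (h1 p hp (a i) (b i) j).2
  rw [hc, Algebra.smul_def, map_mul, map_pow, map_natCast, mul_assoc]
  exact dvd_mul_right _ _

/-- Levels of total size at most `M`. -/
def Lev (ι : Type) [Fintype ι] [DecidableEq ι] (M : ℕ) : Finset (ι → ℕ) :=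
  (Fintype.piFinset fun _ => Finset.range (M + 1)).filter fun l => ∑ i, l i ≤ M

theorem mem_Lev {M : ℕ} {l : ι → ℕ} : l ∈ Lev ι M ↔ ∑ i, l i ≤ M := by
  simp only [Lev, Finset.mem_filter, Fintype.mem_piFinset, Finset.mem_range]
  exact ⟨fun h => h.2, fun h => ⟨fun i => Nat.lt_succ_of_le
    ((Finset.single_le_sum (fun _ _ => Nat.zero_le _) (Finset.mem_univ i)).trans h), h⟩⟩

open Classical in
/-- The product of the fibre traces at one point. -/
theorem point (h1 : K1) (h3 : K3) (hp : 7 ≤ p) (S : ℕ) : ∃ M₀ : ℕ, ∀ M ≥ M₀,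
    ∀ (ι : Type) [Fintype ι] [DecidableEq ι] (W F : Type) [CommRing W] [IsDomain W] [CharZero W]
      [Algebra ℤ_[p] W] [Field F] (c : W →+* F), c p = 0 → (∀ w, c w ≠ 0 → IsUnit w) →
      (∀ w, c w = 0 → (p : W) ∣ w) → ∀ k, 1 ≤ k → ∀ f G : ℕ → ι → W,
      (∀ j i, f (j + 1) i = f j i ^ p - p * G j i) → f k = f 0 →
      (p : W) ^ S ∣ algebraMap ℤ_[p] W (lam p) ^ (Fintype.card ι * k) *
          (if ∀ i, c (f 0 i) ≠ 0 then 1 else 0) - (1 - (p : W) ^ k) ^ Fintype.card ι *
        ∑ l ∈ Lev ι M, pth (Lev ι M) (fun j => Ker p (f j) (G j)) k l l := by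
  obtain ⟨M₀, hM⟩ := (h3 p hp).2 S
  refine ⟨max M₀ (2 * S), fun M hM' ι _ _ W F _ _ _ _ _ c c0 c1 c2 k hk f G hf hk0 => ?_⟩
  have cf : ∀ i j, c (f j i) = 0 ↔ c (f 0 i) = 0 := fun i j => by
    induction j with
    | zero => rfl
    | succ j ih =>
      rw [hf, map_sub, map_mul, c0, zero_mul, sub_zero, map_pow,
        pow_eq_zero_iff (by omega), ih]
  have a1 := pth_shrink (Finset.filter_subset _ _ : Lev ι M ⊆ _) (fun j => Ker p (f j) (G j))
    ((p : W) ^ S) (fun j a b ha => (pow_dvd_pow _ (by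
      replace ha := mt mem_Lev.2 ha
      have := le_of_max_le_right hM'
      unfold nu
      omega)).trans (Ker_dvd p h1 hp (f j) (G j) a b)) hk
  have a2 := prod_congr_dvd Finset.univ ((p : W) ^ S)
    (fun i => (1 - (p : W) ^ k) * ∑ a ∈ Finset.range (M + 1),
      pth (Finset.range (M + 1)) (fun j a b => kap p a b (f j i) (G j i)) k a a)
    (fun i => algebraMap ℤ_[p] W (lam p) ^ k * if c (f 0 i) ≠ 0 then 1 else 0) fun i _ => by
      obtain ⟨b1, b2⟩ := hM M (le_of_max_le_left hM') W k hk (fun j => f j i) (fun j => G j i)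
        (fun j _ => hf j i) (congrFun hk0 i)
      simp only [Matrix.trace, Matrix.diag, chain_pth (M + 1)
        (fun j a b => kap p a b (f j i) (G j i)), Fin.sum_univ_eq_sum_range
          (fun a => pth (Finset.range (M + 1)) (fun j a b => kap p a b (f j i) (G j i)) k a a)]
        at b1 b2
      split_ifs with h
      · rw [mul_one]
        exact b1 fun j _ => c1 _ (mt (cf i j).1 h)
      · rw [mul_zero, sub_zero]
        exact (b2 fun j _ => c2 _ ((cf i j).2 (not_not.1 h))).mul_left _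
  rw [Finset.prod_mul_distrib, Finset.prod_mul_distrib, Finset.prod_const, Finset.prod_const,
    Finset.card_univ, ← pow_mul, mul_comm k, Finset.prod_univ_sum, Finset.prod_boole] at a2
  simp only [← pth_pi, Finset.mem_univ, forall_true_left] at a2
  have := dvd_sub (a1.mul_left ((1 - (p : W) ^ k) ^ Fintype.card ι)) a2
  convert this using 1
  unfold Ker Lev
  ring

end

end Pool.Agent.MP_ea150c_mp.H44
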