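import Pool.Agent.MP_ea150c_mp.H44.K4a

/-! Closed paths of the Dwork matrix as coefficients. -/

namespace Pool.Agent.MP_ea150c_mp.H44

open H49

noncomputable section

variable {Λ σ : Type} [CommRing Λ]

/-- A coefficient of a Laurent polynomial. -/
def cT (A : Tor Λ fun _ : σ => true) (v : σ → ℤ) : Λ := A.coeff ⟨v, fun _ h => by simp at h⟩

theorem cT_sum {α : Type} (s : Finset α) (A : α → Tor Λ fun _ : σ => true) (v : σ → ℤ) :
    cT (∑ a ∈ s, A a) v = ∑ a ∈ s, cT (A a) v := by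
  simp [cT, AddMonoidAlgebra.coeff_sum, Finsupp.finsetSum_apply]

theorem cT_single (w : Mon fun _ : σ => true) (c : Λ) (v : σ → ℤ) [Decidable (w.1 = v)] :
    cT (AddMonoidAlgebra.single w c) v = if w.1 = v then c else 0 := by
  classical
  simp [cT, Finsupp.single_apply, Subtype.ext_iff]

theorem mulrec (Q : ℕ) (A B : Tor Λ fun _ : σ => true) (t b : σ → ℤ) (V : Finset (σ → ℤ))
    (hV : ∀ c, cT A (t - c) * cT B ((Q : ℤ) • c - b) ≠ 0 → c ∈ V) :
    cT (phi0 _ Λ Q A * B) ((Q : ℤ) • t - b) = ∑ c ∈ V, cT A (t - c) * cT B ((Q : ℤ) • c - b) := by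
  classical
  have e : cT (phi0 _ Λ Q A * B) ((Q : ℤ) • t - b) =
      ∑ c ∈ A.coeff.support.image fun w => t - w.1, cT A (t - c) * cT B ((Q : ℤ) • c - b) := by
    rw [Finset.sum_image fun w _ w' _ h => Subtype.ext (sub_right_injective h)]
    conv_lhs => rw [← A.sum_coeff_single, Finsupp.sum, map_sum, Finset.sum_mul, cT_sum]
    refine Finset.sum_congr rfl fun w _ => ?_
    have : phi0 _ Λ Q (AddMonoidAlgebra.single w (A.coeff w)) =
        AddMonoidAlgebra.single (Q • w) (A.coeff w) := AddMonoidAlgebra.mapDomain_single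
    rw [this, sub_sub_cancel]
    refine AddMonoidAlgebra.coeff_single_mul_eq_mul_coeff _ fun m _ => ?_
    simp only [Subtype.ext_iff, AddSubmonoid.coe_add, AddSubmonoidClass.coe_nsmul, smul_sub,
      natCast_zsmul]
    constructor <;> intro h
    · rw [← add_sub_cancel_left (Q • w.1) m.1, h]; abel
    · rw [h]; abel
  rw [e]
  refine Finset.sum_congr_of_eq_on_inter (fun c _ h => by_contra fun k => h (hV c k))
    (fun c _ h => ?_) fun _ _ _ => rfl
  rw [show cT A (t - c) = 0 from by_contra fun k => h (Finset.mem_image.2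
    ⟨_, Finsupp.mem_support_iff.2 k, sub_sub_cancel _ _⟩), zero_mul]

variable {β : Type} [DecidableEq β] (p : ℕ) (K : β → β → Tor Λ fun _ : σ => true) (L : Finset β)

/-- Entries of the infinite matrix. -/
def E1 (a b : (σ → ℤ) × β) : Λ := cT (K a.2 b.2) ((p : ℤ) • a.1 - b.1)

/-- Entries of its powers. -/
def Fk (k : ℕ) (a b : (σ → ℤ) × β) : Λ :=
  cT (pth L (fun j l' l => phi0 _ Λ (p ^ j) (K l' l)) k a.2 b.2) (((p ^ k : ℕ) : ℤ) • a.1 - b.1)

open Classical in
theorem Fk_zero (a b : (σ → ℤ) × β) : Fk p K L 0 a b = if a = b then 1 else 0 := by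
  simp only [Fk, pth, pow_zero, Nat.cast_one, one_smul, Prod.ext_iff]
  by_cases h : a.2 = b.2
  · simp only [h, if_true, AddMonoidAlgebra.one_def, cT_single, and_true]
    simp [eq_comm, sub_eq_zero]
  · simp [h, cT]

theorem Fk_succ (k : ℕ) (a b : (σ → ℤ) × β) (S : Finset ((σ → ℤ) × β)) (h1 : ∀ c ∈ S, c.2 ∈ L)
    (h2 : ∀ c, c.2 ∈ L → E1 p K a c * Fk p K L k c b ≠ 0 → c ∈ S) :
    Fk p K L (k + 1) a b = ∑ c ∈ S, E1 p K a c * Fk p K L k c b := by
  classical
  rw [Fk, pth, cT_sum, pow_succ, Nat.cast_mul, mul_smul, Finset.sum_congr rfl fun m hm =>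
    mulrec _ _ _ _ _ (S.image Prod.fst) fun c hc => Finset.mem_image.2 ⟨(c, m), h2 _ hm hc, rfl⟩,
    ← Finset.sum_product_right']
  exact (Finset.sum_subset (fun c hc => Finset.mem_product.2 ⟨Finset.mem_image_of_mem _ hc,
    h1 c hc⟩) fun c hc h => by_contra fun k => h (h2 c (Finset.mem_product.1 hc).2 k)).symm

theorem Fk_pot (s : (σ → ℤ) × β → ℤ) (hs : ∀ a b, E1 p K a b ≠ 0 → p * s a ≤ s b) (k : ℕ)
    (a b : (σ → ℤ) × β) (h : Fk p K L k a b ≠ 0) : p ^ k * s a ≤ s b := by
  induction k generalizing a with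
  | zero =>
    rw [Fk_zero] at h
    rw [show a = b from by_contra fun e => h (if_neg e)]
    simp
  | succ k ih =>
    by_contra hc
    refine h (Fk_succ p K L k a b ∅ (by simp) fun c _ k' => (hc ?_).elim)
    have := mul_le_mul_of_nonneg_left (hs _ _ (left_ne_zero_of_mul k')) (pow_nonneg p.cast_nonneg k)
    rw [pow_succ, mul_assoc]
    exact this.trans (ih c (right_ne_zero_of_mul k'))

open Classical in
theorem Fk_pow (C : Finset ((σ → ℤ) × β)) (hL : ∀ c ∈ C, c.2 ∈ L) (Fw : (σ → ℤ) × β → Prop)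
    (h1 : ∀ a c, Fw a → E1 p K a c ≠ 0 → Fw c)
    (h2 : ∀ a c, Fw a → a.2 ∈ L → E1 p K a c ≠ 0 → c ∈ C → a ∈ C) (h3 : ∀ c ∈ C, Fw c) (k : ℕ) :
    Matrix.trace ((Matrix.of fun a b : C => E1 p K a.1 b.1) ^ k) = ∑ a ∈ C, Fk p K L k a a := by
  have key : ∀ k (b : C) a, Fw a → a.2 ∈ L → Fk p K L k a b = if h : a ∈ C then
      ((Matrix.of fun a b : C => E1 p K a.1 b.1) ^ k) ⟨a, h⟩ b else 0 := by
    intro k b
    induction k with
    | zero =>
      intro a _ _
      rw [Fk_zero]
      split_ifs with h h' h'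
      · simp [h]
      · exact absurd (h ▸ b.2) h'
      · simp [Subtype.ext_iff, h]
      · rfl
    | succ k ih =>
      intro a ha hl
      rw [Fk_succ p K L k a b C hL fun c hc k' => by_contra fun h => right_ne_zero_of_mul k' (by
        rw [ih c (h1 a c ha (left_ne_zero_of_mul k')) hc, dif_neg h])]
      split_ifs with h
      · rw [pow_succ', Matrix.mul_apply, ← Finset.sum_coe_sort C]
        refine Finset.sum_congr rfl fun c _ => ?_
        rw [ih c (h3 _ c.2) (hL _ c.2), dif_pos c.2, Matrix.of_apply]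
      · exact Finset.sum_eq_zero fun c hc => by
          rw [show E1 p K a c = 0 from by_contra fun k' => h (h2 a c ha hl k' hc), zero_mul]
  rw [← Finset.sum_coe_sort C, Matrix.trace]
  refine Finset.sum_congr rfl fun c _ => ?_
  rw [key k c c (h3 _ c.2) (hL _ c.2), dif_pos c.2, Matrix.diag_apply]

variable [Fintype σ] [DecidableEq σ]

/-- Polynomials as Laurent polynomials. -/
def iT (Λ σ : Type) [CommRing Λ] [DecidableEq σ] :
    MvPolynomial σ Λ →ₐ[Λ] Tor Λ fun _ : σ => true :=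
  MvPolynomial.aeval (tX _ Λ)

theorem cT_iT (H : MvPolynomial σ Λ) (v : σ →₀ ℕ) :
    cT (iT Λ σ H) (fun x => v x) = H.coeff v := by
  induction H using MvPolynomial.induction_on' with
  | add a b h1 h2 => rw [map_add, MvPolynomial.coeff_add, ← h1, ← h2]; simp [cT]
  | monomial w c =>
    have := mono_eq_prod (Λ := Λ) (fun _ : σ => true) ⟨fun x => w x, fun _ h => by simp at h⟩
    simp only [Int.toNat_natCast, Int.toNat_neg_natCast, pow_zero, mul_one] at this
    rw [iT, MvPolynomial.aeval_monomial, Finsupp.prod_fintype _ _ fun _ => pow_zero _, ← this,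
      ← Algebra.smul_def, AddMonoidAlgebra.smul_single, smul_eq_mul, mul_one, cT_single,
      MvPolynomial.coeff_monomial]
    simp [funext_iff, Finsupp.ext_iff]

end

end Pool.Agent.MP_ea150c_mp.H44
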