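import Pool.Agent.MP_ea150c_mp.H20.SpecR

/-! Traces of powers are power sums of eigenvalues. -/

namespace Pool.Agent.MP_ea150c_mp.H44

open Polynomial

theorem det_aeval {K : Type} [Field K] [IsAlgClosed K] {ι : Type} [Fintype ι] [DecidableEq ι]
    (M : Matrix ι ι K) (f : K[X]) :
    (aeval M f).det = (M.charpoly.roots.map fun g => f.eval g).prod := by
  have hs := IsAlgClosed.splits M.charpoly
  have hc : M.charpoly.roots.card = Fintype.card ι := by
    rw [← hs.natDegree_eq_card_roots, Matrix.charpoly_natDegree_eq_dim]
  have hf : f ∈ Submonoid.closure ({C a | a : K} ∪ {X + C a | a : K}) := IsAlgClosed.splits f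
  induction hf using Submonoid.closure_induction with
  | mem f h =>
    rcases h with ⟨a, rfl⟩ | ⟨a, rfl⟩
    · simp [Algebra.algebraMap_eq_smul_one, hc]
    · have e := M.eval_charpoly (-a)
      rw [hs.eval_eq_prod_roots_of_monic M.charpoly_monic] at e
      have e2 : aeval M (X + C a) = -(Matrix.scalar ι (-a) - M) := by
        rw [map_neg, map_add, aeval_X, aeval_C, neg_sub, sub_neg_eq_add]
        rfl
      rw [e2, Matrix.det_neg, ← e, ← hc, ← Multiset.card_map (fun x => -a - x),
        ← Multiset.prod_map_neg, Multiset.map_map]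
      simp [add_comm]
  | one => simp
  | mul f g _ _ h1 h2 => simp [h1, h2, Multiset.prod_map_mul]

theorem sPow : H20.SPow := by
  intro K _ _ ι _ _ M k
  have e : (M ^ k).charpoly = ((M.charpoly.roots.map (· ^ k)).map fun a => X - C a).prod := by
    refine Polynomial.funext fun x => ?_
    rw [Matrix.eval_charpoly, eval_multiset_prod]
    have := det_aeval M (C x - X ^ k)
    rw [map_sub, map_pow, aeval_X, aeval_C] at this
    refine this.trans ?_
    simp only [Multiset.map_map, Function.comp, eval_sub, eval_pow, eval_X, eval_C]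
  rw [Matrix.trace_eq_sum_roots_charpoly, e, roots_multiset_prod_X_sub_C, H20.ps]

end Pool.Agent.MP_ea150c_mp.H44
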